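import Pool.Agent.Helper830.Weiss.Main

set_option autoImplicit false
open Filter Topology

namespace Pool.Agent.W717.WeissFrozen

open Pool.Agent.Helper830.Weiss

/-- the statement of `weiss` for the explicit sofic shift `SF` -/
theorem weiss_SF : ∃ h : ℝ, HasEntropy SF h ∧
    ∀ (k : ℕ) (X : Set (ℤ × ℤ → Fin k)), IsSFT X → (∃ φ, IsFactorCode X SF φ) →
      ∃ h' : ℝ, HasEntropy X h' ∧ h < h' := by
  classical
  obtain ⟨hYne, hYcl, hYinv⟩ := SF_sofic.isShift
  obtain ⟨h, hent, _, hle⟩ := entropy_exists SF hYne hYinv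
  refine ⟨h, hent, ?_⟩
  rintro k X hX ⟨φ, hφc, hφe, hφi⟩
  obtain ⟨hXne, hXcl, hXinv⟩ := hX.isShift
  obtain ⟨h', hent', _, _⟩ := entropy_exists X hXne hXinv
  refine ⟨h', hent', ?_⟩
  obtain ⟨r₁, hr₁⟩ := chl X hXcl hXinv φ hφc hφe
  obtain ⟨_, C, P, hXP⟩ := hX
  obtain ⟨r₂, hr₂⟩ : ∃ r₂ : ℕ, ∀ u ∈ C, |u.1| ≤ r₂ ∧ |u.2| ≤ r₂ := by
    refine ⟨C.sup (fun u => u.1.natAbs + u.2.natAbs), fun u hu => ?_⟩
    have := Finset.le_sup (f := fun u : ℤ × ℤ => u.1.natAbs + u.2.natAbs) hu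
    rw [Int.abs_eq_natAbs, Int.abs_eq_natAbs]
    constructor <;> omega
  let Y : Sys (Fin k) Vis :=
    { X := X
      φ := fun x v => eV.symm (φ x v)
      r := max r₁ r₂
      loc := by
        intro z hz
        rw [hXP]
        intro v
        obtain ⟨x, hx, hxz⟩ := hz v
        rw [hXP] at hx
        have h1 := hx v
        have h2 : (fun u : C => z (v + u.1)) = fun u : C => x (v + u.1) := by
          funext u
          apply hxz
          obtain ⟨a1, a2⟩ := hr₂ u.1 u.2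
          constructor
          · simp only [Prod.fst_add, add_sub_cancel_left]
            push_cast
            exact le_trans a1 (le_max_right _ _)
          · simp only [Prod.snd_add, add_sub_cancel_left]
            push_cast
            exact le_trans a2 (le_max_right _ _)
        rw [h2]
        exact h1
      win := by
        intro x hx x' hx' v hv
        have := hr₁ x hx x' hx' v (fun u h1 h2 => hv u ⟨?_, ?_⟩)
        · simp only [this]
        · push_cast
          exact le_trans h1 (le_max_left _ _)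
        · push_cast
          exact le_trans h2 (le_max_left _ _)
      inv := hXinv
      com := by
        intro x hx v
        funext u
        simp only [hφe x hx v] }
  have hYS : Y.φ '' Y.X = S := by
    ext s
    constructor
    · rintro ⟨x, hx, rfl⟩
      have : φ x ∈ SF := by rw [← hφi]; exact ⟨x, hx, rfl⟩
      exact this
    · intro hs
      have : (fun v => eV (s v)) ∈ SF := by
        change (fun v => eV.symm (eV (s v))) ∈ S
        simpa using hs
      rw [← hφi] at this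
      obtain ⟨x, hx, hxs⟩ := this
      refine ⟨x, hx, ?_⟩
      funext v
      change eV.symm (φ x v) = s v
      rw [hxs]
      simp
  exact sys_main Y hYS hXne h' h hent' (fun n hn => by rw [← pat_SF]; exact hle n hn)

/-- the infimum of the normalised pattern counts is the entropy -/
theorem iInf_eq {A : Type} [Finite A] (X : Set (ℤ × ℤ → A)) (hne : X.Nonempty)
    (hinv : ∀ x ∈ X, ∀ v : ℤ × ℤ, (fun u => x (u + v)) ∈ X) (h : ℝ) (hh : HasEntropy X h) :
    (⨅ n : ℕ, Real.log ((pat X (n + 1) : ℕ) : ℝ) / ((n : ℝ) + 1) ^ 2) = h := by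
  obtain ⟨h', hent, h0, hle⟩ := entropy_exists X hne hinv
  have hhh : h = h' := tendsto_nhds_unique hh hent
  subst hhh
  have hlb : ∀ n : ℕ, h ≤ Real.log ((pat X (n + 1) : ℕ) : ℝ) / ((n : ℝ) + 1) ^ 2 := by
    intro n
    have := hle (n + 1) (Nat.succ_pos n)
    rw [le_div_iff₀ (by positivity)]
    push_cast at this
    exact this
  apply le_antisymm
  · have h1 : Tendsto (fun n : ℕ => Real.log ((pat X (n + 1) : ℕ) : ℝ) / ((n : ℝ) + 1) ^ 2) atTop (𝓝 h) := by
      have h2 := (tendsto_add_atTop_iff_nat 1).2 hent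
      refine h2.congr (fun n => ?_)
      push_cast
      rfl
    refine ge_of_tendsto h1 (Eventually.of_forall fun n => ?_)
    exact ciInf_le ⟨h, by rintro _ ⟨n, rfl⟩; exact hlb n⟩ n
  · exact le_ciInf hlb

/-- transport from `Fin 2 → ℤ` to `ℤ × ℤ` -/
def tr {A : Type} (X : Set ((Fin 2 → ℤ) → A)) : Set (ℤ × ℤ → A) :=
  {x | (fun w : Fin 2 → ℤ => x (w 0, w 1)) ∈ X}

theorem pat_tr {m : ℕ} (X : Set ((Fin 2 → ℤ) → Fin m)) (n : ℕ) :
    {p : (Fin 2 → Fin (n+1)) → Fin m |
          ∃ y ∈ X, ∀ i, p i = y (fun j => ((i j : ℕ) : ℤ))}.ncard = pat (tr X) (n + 1) := by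
  unfold pat
  have : {p : (Fin 2 → Fin (n+1)) → Fin m |
          ∃ y ∈ X, ∀ i, p i = y (fun j => ((i j : ℕ) : ℤ))} =
      (fun (q : Fin (n+1) × Fin (n+1) → Fin m) (i : Fin 2 → Fin (n+1)) => q (i 0, i 1)) ''
        ((fun (x : ℤ × ℤ → Fin m) (i : Fin (n+1) × Fin (n+1)) => x ((i.1 : ℤ), (i.2 : ℤ))) '' tr X) := by
    ext p
    constructor
    · rintro ⟨y, hy, hp⟩
      refine ⟨_, ⟨fun v => y ![v.1, v.2], ?_, rfl⟩, ?_⟩
      · change (fun w : Fin 2 → ℤ => y ![w 0, w 1]) ∈ X
        have : (fun w : Fin 2 → ℤ => y ![w 0, w 1]) = y := by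
          funext w
          congr 1
          funext j
          fin_cases j <;> rfl
        rw [this]
        exact hy
      · funext i
        rw [hp i]
        change y ![((i 0 : ℕ) : ℤ), ((i 1 : ℕ) : ℤ)] = _
        congr 1
        funext j
        fin_cases j <;> rfl
    · rintro ⟨_, ⟨x, hx, rfl⟩, rfl⟩
      exact ⟨_, hx, fun i => rfl⟩
  rw [this]
  apply Set.ncard_image_of_injective
  intro p q h
  funext i
  have := congrFun h ![i.1, i.2]
  simpa using this

theorem sft_to (k : ℕ) (X : Set (ℤ × ℤ → Fin k)) (C : Finset (ℤ × ℤ)) (P : Set (C → Fin k))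
    (hX : X = {x | ∀ v : ℤ × ℤ, (fun u : C => x (v + u.1)) ∈ P}) :
    ∃ (F : Finset (Fin 2 → ℤ)) (P' : Set (F → Fin k)), ∀ y : (Fin 2 → ℤ) → Fin k,
      (∀ v : Fin 2 → ℤ, (fun u : F => y ((u : Fin 2 → ℤ) + v)) ∈ P') ↔
        (fun v : ℤ × ℤ => y ![v.1, v.2]) ∈ X := by
  classical
  refine ⟨C.image (fun u => ![u.1, u.2]), {p | (fun u : C => p ⟨![u.1.1, u.1.2],
    Finset.mem_image_of_mem (fun u : ℤ × ℤ => ![u.1, u.2]) u.2⟩) ∈ P}, fun y => ?_⟩
  have key : ∀ v : Fin 2 → ℤ, (fun u : C => y (![u.1.1, u.1.2] + v)) =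
      fun u : C => y ![((v 0, v 1) + u.1).1, ((v 0, v 1) + u.1).2] := by
    intro v
    funext u
    congr 1
    funext j
    fin_cases j <;> simp [add_comm]
  rw [hX]
  constructor
  · intro h v
    have h1 := h ![v.1, v.2]
    change (fun u : C => y (![u.1.1, u.1.2] + ![v.1, v.2])) ∈ P at h1
    rw [key] at h1
    exact h1
  · intro h v
    have h1 := h (v 0, v 1)
    change (fun u : C => y (![u.1.1, u.1.2] + v)) ∈ P
    rw [key]
    exact h1

theorem sft_from (m : ℕ) (F : Finset (Fin 2 → ℤ)) (P : Set (F → Fin m)) :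
    ∃ (C : Finset (ℤ × ℤ)) (P' : Set (C → Fin m)),
      tr {y : (Fin 2 → ℤ) → Fin m | ∀ v : Fin 2 → ℤ, (fun u : F => y ((u : Fin 2 → ℤ) + v)) ∈ P} =
        {x | ∀ v : ℤ × ℤ, (fun u : C => x (v + u.1)) ∈ P'} := by
  classical
  refine ⟨F.image (fun u => (u 0, u 1)), {p | (fun u : F => p ⟨(u.1 0, u.1 1),
    Finset.mem_image_of_mem (fun u : Fin 2 → ℤ => (u 0, u 1)) u.2⟩) ∈ P}, ?_⟩
  ext x
  have key : ∀ v : Fin 2 → ℤ, (fun u : F => x ((u.1 + v) 0, (u.1 + v) 1)) =
      fun u : F => x ((v 0, v 1) + (u.1 0, u.1 1)) := by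
    intro v
    funext u
    congr 1
    ext <;> simp [add_comm]
  constructor
  · intro h v
    have h1 := h ![v.1, v.2]
    change (fun u : F => x ((u.1 + ![v.1, v.2]) 0, (u.1 + ![v.1, v.2]) 1)) ∈ P at h1
    rw [key] at h1
    exact h1
  · intro h v
    have h1 := h (v 0, v 1)
    change (fun u : F => x ((u.1 + v) 0, (u.1 + v) 1)) ∈ P
    rw [key]
    exact h1

end Pool.Agent.W717.WeissFrozen
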