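import Pool.Agent.W519.N

/-! Metric spaces which are not locally compact and whose set of non-isolated points is not compact
carry a closed preorder which is not normal. -/

open Set Topology Filter

namespace Pool.Agent.W519.N

/-- a closed set which is not compact contains a sequence without cluster points -/
theorem seq_E {X : Type*} [MetricSpace X] {C : Set X} (hC : IsClosed C) (hn : ¬ IsCompact C)
    (a : X) : ∃ u : ℕ → X, (∀ n, u n ∈ C) ∧ (∀ n, u n ≠ a) ∧
      ∀ x, ∃ U ∈ 𝓝 x, {n | u n ∈ U}.Finite := by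
  rw [isCompact_iff_isSeqCompact] at hn
  unfold IsSeqCompact at hn
  push Not at hn
  obtain ⟨u, hu, hlim⟩ := hn
  have hloc : ∀ x, ∃ U ∈ 𝓝 x, {n | u n ∈ U}.Finite := by
    intro x
    by_contra hcon
    push Not at hcon
    have h1 : MapClusterPt x atTop u := by
      rw [mapClusterPt_iff_frequently]
      intro s hs
      rw [Nat.frequently_atTop_iff_infinite]
      exact hcon s hs
    obtain ⟨φ, hφ, hφ2⟩ := MapClusterPt.tendsto_subseq h1
    have hx : x ∈ C := hC.mem_of_tendsto hφ2 (Eventually.of_forall fun n => hu _)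
    exact hlim x hx φ hφ hφ2
  obtain ⟨U, hU, hfin⟩ := hloc a
  obtain ⟨N, hN⟩ := hfin.bddAbove
  refine ⟨fun n => u (n + (N + 1)), fun n => hu _, ?_, ?_⟩
  · intro n hna
    have h1 : n + (N + 1) ∈ {n | u n ∈ U} := by
      show u (n + (N + 1)) ∈ U
      have : u (n + (N + 1)) = a := hna
      rw [this]
      exact mem_of_mem_nhds hU
    have h2 := hN h1
    omega
  · intro x
    obtain ⟨V, hV, hVf⟩ := hloc x
    refine ⟨V, hV, ?_⟩
    have h3 : {n | u (n + (N + 1)) ∈ V} = (fun n => n + (N + 1)) ⁻¹' {n | u n ∈ V} := rfl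
    rw [h3]
    exact hVf.preimage (fun n _ m _ h => Nat.add_right_cancel h)

theorem closed_E {X ι : Type*} [TopologicalSpace X] [T1Space X] (u : ι → X)
    (hu : ∀ x, ∃ U ∈ 𝓝 x, {n | u n ∈ U}.Finite) (S : Set ι) : IsClosed (u '' S) := by
  have h1 : LocallyFinite (fun n : S => ({u n} : Set X)) := by
    intro x
    obtain ⟨U, hU, hf⟩ := hu x
    refine ⟨U, hU, ?_⟩
    refine Set.Finite.subset (hf.preimage (Subtype.val_injective.injOn)) ?_
    rintro n ⟨z, hz1, hz2⟩
    have : z = u n := hz1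
    rw [this] at hz2
    exact hz2
  have h2 := h1.isClosed_iUnion (fun n => isClosed_singleton)
  have h3 : u '' S = ⋃ n : S, ({u n} : Set X) := by
    ext z
    simp only [Set.mem_image, Set.mem_iUnion, Set.mem_singleton_iff]
    constructor
    · rintro ⟨n, hn, rfl⟩
      exact ⟨⟨n, hn⟩, rfl⟩
    · rintro ⟨n, rfl⟩
      exact ⟨n, n.2, rfl⟩
  rw [h3]
  exact h2

theorem nonIso_closed_E {X : Type*} [TopologicalSpace X] : IsClosed (NonIso X) := by
  rw [← isOpen_compl_iff]
  have h1 : (NonIso X)ᶜ = ⋃ x : {x : X // IsOpen ({x} : Set X)}, ({(x : X)} : Set X) := by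
    ext z
    simp only [NonIso, Set.mem_compl_iff, Set.mem_iUnion, Set.mem_singleton_iff]
    constructor
    · intro h
      exact ⟨⟨z, not_not.1 h⟩, rfl⟩
    · rintro ⟨w, rfl⟩ h
      exact h w.2
  rw [h1]
  exact isOpen_iUnion fun x => x.2

theorem not_allNormal_of_not_locallyCompact {X : Type*} [MetricSpace X]
    (h1 : ¬ IsCompact (NonIso X)) (h2 : ¬ LocallyCompactSpace X) : ¬ AllNormal X := by
  -- the point without compact neighbourhoods
  obtain ⟨p, hp⟩ : ∃ p : X, ∀ K : Set X, IsCompact K → K ∉ 𝓝 p := by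
    by_contra hcon
    push Not at hcon
    apply h2
    have : WeaklyLocallyCompactSpace X := ⟨fun x => by
      obtain ⟨K, hK, hKx⟩ := hcon x
      exact ⟨K, hK, hKx⟩⟩
    infer_instance
  -- the closed discrete sequence of non-isolated points
  obtain ⟨q, hq, hqp, hql⟩ := seq_E nonIso_closed_E h1 p
  have hB : IsClosed (range q) := by
    rw [← image_univ]
    exact closed_E q hql univ
  have hpB : p ∉ range q := by
    rintro ⟨m, hm⟩
    exact hqp m hm
  obtain ⟨δ, hδ, hδB⟩ := Metric.isOpen_iff.1 hB.isOpen_compl p hpB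
  have hδq : ∀ m, δ ≤ dist (q m) p := by
    intro m
    by_contra hlt
    push Not at hlt
    exact hδB (Metric.mem_ball.2 hlt) ⟨m, rfl⟩
  -- the sequences near p
  have hx : ∀ m : ℕ, ∃ u : ℕ → X, (∀ k, u k ∈ Metric.closedBall p (min (1 / ((m : ℝ) + 1)) (δ / 2)))
      ∧ (∀ k, u k ≠ p) ∧ ∀ x, ∃ U ∈ 𝓝 x, {k | u k ∈ U}.Finite := by
    intro m
    refine seq_E Metric.isClosed_closedBall ?_ p
    intro hc
    refine hp _ hc (Metric.closedBall_mem_nhds p ?_)
    have : (0 : ℝ) < 1 / ((m : ℝ) + 1) := by positivity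
    exact lt_min this (half_pos hδ)
  choose x hx1 hx2 hx3 using hx
  -- the sequences near the q m
  have hy : ∀ m k : ℕ, ∃ y : X, y ≠ q m ∧ y ∉ range q ∧ dist y (q m) < 1 / ((m : ℝ) + 1) ∧
      dist y (q m) < 1 / ((k : ℝ) + 1) ∧ dist y (q m) < δ / 2 := by
    intro m k
    have hO : IsClosed (q '' {n | q n ≠ q m}) := closed_E q hql _
    obtain ⟨ρ, hρ, hρm⟩ : ∃ ρ : ℝ, 0 < ρ ∧ ρ ≤ 1 / ((m : ℝ) + 1) ∧ ρ ≤ 1 / ((k : ℝ) + 1) ∧
        ρ ≤ δ / 2 := by
      refine ⟨min (min (1 / ((m : ℝ) + 1)) (1 / ((k : ℝ) + 1))) (δ / 2), ?_, ?_, ?_, ?_⟩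
      · have e1 : (0 : ℝ) < 1 / ((m : ℝ) + 1) := by positivity
        have e2 : (0 : ℝ) < 1 / ((k : ℝ) + 1) := by positivity
        exact lt_min (lt_min e1 e2) (half_pos hδ)
      · exact (min_le_left _ _).trans (min_le_left _ _)
      · exact (min_le_left _ _).trans (min_le_right _ _)
      · exact min_le_right _ _
    have hN : IsOpen ((q '' {n | q n ≠ q m})ᶜ ∩ Metric.ball (q m) ρ) :=
      hO.isOpen_compl.inter Metric.isOpen_ball
    have hmem : q m ∈ (q '' {n | q n ≠ q m})ᶜ ∩ Metric.ball (q m) ρ := by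
      refine ⟨?_, Metric.mem_ball_self hρ⟩
      rintro ⟨n, hn, hn2⟩
      exact hn hn2
    obtain ⟨y, hy1, hy2⟩ : ∃ y ∈ (q '' {n | q n ≠ q m})ᶜ ∩ Metric.ball (q m) ρ, y ≠ q m := by
      by_contra hcon
      push Not at hcon
      apply hq m
      have : (q '' {n | q n ≠ q m})ᶜ ∩ Metric.ball (q m) ρ = {q m} := by
        ext z
        constructor
        · intro hz
          exact hcon z hz
        · intro hz
          have : z = q m := hz
          rw [this]
          exact hmem
      rw [← this]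
      exact hN
    have hd : dist y (q m) < ρ := hy1.2
    refine ⟨y, hy2, ?_, hd.trans_le hρm.1, hd.trans_le hρm.2.1, hd.trans_le hρm.2.2⟩
    rintro ⟨n, rfl⟩
    exact hy1.1 ⟨n, hy2, rfl⟩
  choose y hy1 hy2 hy3 hy4 hy5 using hy
  have hxy : ∀ m k m' k', y m k ≠ x m' k' := by
    intro m k m' k' h
    have e1 : dist (x m' k') p ≤ δ / 2 := (hx1 m' k').trans (min_le_right _ _)
    have e2 := hδq m
    have e3 := dist_triangle (q m) (y m k) p
    have e4 := hy5 m k
    rw [dist_comm] at e4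
    rw [← h] at e1
    linarith
  intro hall
  have hR : ClosedPreorder (fun a b : X => a = b ∨ ∃ m k, a = y m k ∧ b = x m k) := by
    refine ⟨fun a => Or.inl rfl, ?_, ?_⟩
    · rintro a b c (rfl | ⟨m, k, h3, h4⟩) (rfl | ⟨m', k', h5, h6⟩)
      · exact Or.inl rfl
      · exact Or.inr ⟨m', k', h5, h6⟩
      · exact Or.inr ⟨m, k, h3, h4⟩
      · rw [h4] at h5
        exact (hxy _ _ _ _ h5.symm).elim
    · have hdiag : IsClosed {z : X × X | z.1 = z.2} := isClosed_eq continuous_fst continuous_snd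
      have hlinks : IsClosed ((fun i : ℕ × ℕ => (y i.1 i.2, x i.1 i.2)) '' univ) := by
        apply closed_E
        rintro ⟨s, t⟩
        -- neighbourhood of s meeting finitely many rows
        obtain ⟨U, hU, hUf⟩ : ∃ U ∈ 𝓝 s, {m | ∃ k, y m k ∈ U}.Finite := by
          obtain ⟨U0, hU0, hU0f⟩ := hql s
          obtain ⟨ε, hε, hεU⟩ := Metric.mem_nhds_iff.1 hU0
          obtain ⟨M, hM⟩ := exists_nat_one_div_lt (half_pos hε)
          refine ⟨Metric.ball s (ε / 2), Metric.ball_mem_nhds s (half_pos hε), ?_⟩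
          refine Set.Finite.subset (hU0f.union (Set.finite_Iio M)) ?_
          rintro m ⟨k, hk⟩
          by_cases hmM : m < M
          · right
            exact hmM
          · left
            apply hεU
            have e1 : dist (y m k) s < ε / 2 := hk
            have e2 := hy3 m k
            have e3 : 1 / ((m : ℝ) + 1) ≤ 1 / ((M : ℝ) + 1) := by
              apply one_div_le_one_div_of_le (by positivity)
              have : (M : ℝ) ≤ m := by exact_mod_cast not_lt.1 hmM
              linarith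
            have e4 := dist_triangle (q m) (y m k) s
            rw [dist_comm] at e2
            show dist (q m) s < ε
            linarith
        have hV : ∀ m, ∃ V ∈ 𝓝 t, {k | x m k ∈ V}.Finite := fun m => hx3 m t
        choose V hV1 hV2 using hV
        refine ⟨U ×ˢ (⋂ m ∈ {m | ∃ k, y m k ∈ U}, V m), prod_mem_nhds hU ?_, ?_⟩
        · exact (Filter.biInter_mem hUf).2 fun m _ => hV1 m
        · refine Set.Finite.subset (Set.Finite.biUnion hUf
            (fun m _ => (hV2 m).image (fun k => (m, k)))) ?_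
          rintro ⟨m, k⟩ ⟨e1, e2⟩
          have e1' : y m k ∈ U := e1
          have e2' : x m k ∈ ⋂ m ∈ {m | ∃ k, y m k ∈ U}, V m := e2
          rw [Set.mem_iInter₂] at e2'
          refine Set.mem_iUnion₂.2 ⟨m, ⟨k, e1'⟩, k, e2' m ⟨k, e1'⟩, rfl⟩
      have := hdiag.union hlinks
      convert this using 1
      ext ⟨a, b⟩
      simp only [Set.mem_union, Set.mem_image, Set.mem_univ, true_and, Prod.exists, Prod.mk.injEq]
      constructor
      · rintro (h | ⟨m, k, h3, h4⟩)
        · exact Or.inl h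
        · exact Or.inr ⟨m, k, h3.symm, h4.symm⟩
      · rintro (h | ⟨m, k, h3, h4⟩)
        · exact Or.inl h
        · exact Or.inr ⟨m, k, h3.symm, h4.symm⟩
  obtain ⟨U, V, hU, hUd, hV, hVi, hAU, hBV, hdisj⟩ := hall _ hR {p} (range q) isClosed_singleton
    (by
      rintro z w (rfl | ⟨m, k, h3, h4⟩) hw
      · exact hw
      · have : w = p := hw
        rw [this] at h4
        exact (hx2 m k h4.symm).elim) hB
    (by
      rintro w z (rfl | ⟨m, k, h3, h4⟩) hw
      · exact hw
      · rw [h3] at hw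
        exact (hy2 m k hw).elim)
    (by
      rw [Set.disjoint_left]
      intro z hz hz2
      have : z = p := hz
      rw [this] at hz2
      exact hpB hz2)
  obtain ⟨ε, hε, hεU⟩ := Metric.isOpen_iff.1 hU p (hAU rfl)
  obtain ⟨m, hm⟩ := exists_nat_one_div_lt hε
  obtain ⟨η, hη, hηV⟩ := Metric.isOpen_iff.1 hV (q m) (hBV ⟨m, rfl⟩)
  obtain ⟨k, hk⟩ := exists_nat_one_div_lt hη
  have e1 : x m k ∈ U := hεU (lt_of_le_of_lt ((hx1 m k).trans (min_le_left _ _)) hm)
  have e2 : y m k ∈ U := hUd (y m k) (x m k) (Or.inr ⟨m, k, rfl, rfl⟩) e1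
  have e3 : y m k ∈ V := hηV ((hy4 m k).trans hk)
  exact Set.disjoint_left.1 hdisj e2 e3

end Pool.Agent.W519.N
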